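import Mathlib

/-! A Leonard triple in dimension three that does not come from the equitable basis of `sl2`. -/

namespace Pool.Agent.Results.MP_44ae8d_al.AnticommutatorTriple

open Matrix

universe u v

/-- A square matrix is irreducible tridiagonal: entries off the three central diagonals vanish and
all entries directly above and directly below the main diagonal are nonzero. -/
def IsIrredTridiagonal {K : Type u} [Field K] {n : ℕ} (M : Matrix (Fin n) (Fin n) K) : Prop :=
  (∀ i j : Fin n, (i : ℕ) + 1 < j ∨ (j : ℕ) + 1 < i → M i j = 0) ∧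
    ∀ i j : Fin n, (i : ℕ) + 1 = j → M i j ≠ 0 ∧ M j i ≠ 0

section Defs

variable {K : Type u} [Field K] {V : Type v} [AddCommGroup V] [Module K V]

/-- `A, B` is a Leonard pair on `V`. -/
def IsLeonardPair (A B : Module.End K V) : Prop :=
  (∃ (n : ℕ) (b : Module.Basis (Fin n) K V), (LinearMap.toMatrix b b A).IsDiag ∧
      IsIrredTridiagonal (LinearMap.toMatrix b b B)) ∧
    ∃ (n : ℕ) (b : Module.Basis (Fin n) K V), (LinearMap.toMatrix b b B).IsDiag ∧
      IsIrredTridiagonal (LinearMap.toMatrix b b A)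

/-- There is a basis in which `X` is diagonal while `Y` and `Z` are irreducible tridiagonal. -/
def HasLeonardBasis (X Y Z : Module.End K V) : Prop :=
  ∃ (n : ℕ) (b : Module.Basis (Fin n) K V), (LinearMap.toMatrix b b X).IsDiag ∧
    IsIrredTridiagonal (LinearMap.toMatrix b b Y) ∧ IsIrredTridiagonal (LinearMap.toMatrix b b Z)

/-- `A, B, C` is a Leonard triple on `V`. -/
def IsLeonardTriple (A B C : Module.End K V) : Prop :=
  HasLeonardBasis A B C ∧ HasLeonardBasis B A C ∧ HasLeonardBasis C A B

/-- The operators `x, y, z` satisfy the relations of the equitable basis of `sl2`, that is, they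
are the images of the equitable basis under a representation of `sl2` on `V`. -/
structure IsEquitable (x y z : Module.End K V) : Prop where
  lie_xy : x * y - y * x = (2 : K) • x + (2 : K) • y
  lie_yz : y * z - z * y = (2 : K) • y + (2 : K) • z
  lie_zx : z * x - x * z = (2 : K) • z + (2 : K) • x

/-- The representation given by `x, y, z` is irreducible. -/
def IsIrreducible (x y z : Module.End K V) : Prop :=
  Nontrivial V ∧ ∀ W : Submodule K V, (∀ v ∈ W, x v ∈ W ∧ y v ∈ W ∧ z v ∈ W) → W = ⊥ ∨ W = ⊤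

/-- The span of `I, p, q, pq`. -/
def spanFour (p q : Module.End K V) : Submodule K (Module.End K V) :=
  Submodule.span K {1, p, q, p * q}

end Defs

lemma exists_basis {K : Type u} [Field K] {n : ℕ} (P Q : Matrix (Fin n) (Fin n) K)
    (h : P * Q = 1) : ∃ b : Module.Basis (Fin n) K (Fin n → K), ∀ M : Matrix (Fin n) (Fin n) K,
      LinearMap.toMatrix b b (Matrix.toLin' M) = Q * M * P := by
  have h' : Q * P = 1 := mul_eq_one_comm.mp h
  let e : (Fin n → K) ≃ₗ[K] (Fin n → K) := Matrix.toLin'OfInv h' h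
  have he : ∀ v, e v = P *ᵥ v := fun v => rfl
  have he' : ∀ v, e.symm v = Q *ᵥ v := fun v => rfl
  refine ⟨(Pi.basisFun K (Fin n)).map e, fun M => ?_⟩
  rw [← LinearMap.toMatrix'_toLin' (R := K) (Q * M * P)]
  ext i j
  rw [LinearMap.toMatrix_apply, LinearMap.toMatrix'_apply]
  simp [he, he', Matrix.mul_assoc]

/-- The linear map over `K` given by a rational matrix. -/
noncomputable def act (K : Type u) [Field K] [CharZero K] (M : Matrix (Fin 3) (Fin 3) ℚ) :
    Module.End K (Fin 3 → K) :=
  Matrix.toLin' (M.map (algebraMap ℚ K))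

section Act

variable (K : Type u) [Field K] [CharZero K]

lemma act_mul (M N : Matrix (Fin 3) (Fin 3) ℚ) : act K (M * N) = act K M * act K N := by
  unfold act
  rw [Matrix.map_mul, Matrix.toLin'_mul]
  rfl

lemma act_one : act K 1 = 1 := by
  unfold act
  rw [Matrix.map_one _ (map_zero _) (map_one _), Matrix.toLin'_one]
  rfl

lemma act_add (M N : Matrix (Fin 3) (Fin 3) ℚ) : act K (M + N) = act K M + act K N := by
  unfold act
  rw [Matrix.map_add _ (map_add _), map_add]

lemma act_smul (c : ℚ) (M : Matrix (Fin 3) (Fin 3) ℚ) :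
    act K (c • M) = (c : K) • act K M := by
  unfold act
  rw [← map_smul]
  congr 1
  ext i j
  simp

lemma act_apply (M : Matrix (Fin 3) (Fin 3) ℚ) (v : Fin 3 → K) (i : Fin 3) :
    act K M v i = (M i 0 : K) * v 0 + ((M i 1 : K) * v 1 + (M i 2 : K) * v 2) := by
  unfold act
  simp [Matrix.toLin'_apply, Matrix.mulVec, dotProduct, Fin.sum_univ_succ]

/-- A basis in which one map is diagonal and two others are irreducible tridiagonal, from explicit
rational matrices. -/
lemma leonard_of (X Y Z P Q X' Y' Z' : Matrix (Fin 3) (Fin 3) ℚ) (h : P * Q = 1)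
    (hX : Q * X * P = X') (hY : Q * Y * P = Y') (hZ : Q * Z * P = Z')
    (hX' : ∀ i j, i ≠ j → X' i j = 0)
    (hY' : (∀ i j : Fin 3, (i : ℕ) + 1 < j ∨ (j : ℕ) + 1 < i → Y' i j = 0) ∧
      ∀ i j : Fin 3, (i : ℕ) + 1 = j → Y' i j ≠ 0 ∧ Y' j i ≠ 0)
    (hZ' : (∀ i j : Fin 3, (i : ℕ) + 1 < j ∨ (j : ℕ) + 1 < i → Z' i j = 0) ∧
      ∀ i j : Fin 3, (i : ℕ) + 1 = j → Z' i j ≠ 0 ∧ Z' j i ≠ 0) :
    HasLeonardBasis (act K X) (act K Y) (act K Z) := by
  have h1 : P.map (algebraMap ℚ K) * Q.map (algebraMap ℚ K) = 1 := by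
    rw [← Matrix.map_mul, h, Matrix.map_one _ (map_zero _) (map_one _)]
  obtain ⟨B, hB⟩ := exists_basis _ _ h1
  have key : ∀ M M' : Matrix (Fin 3) (Fin 3) ℚ, Q * M * P = M' →
      LinearMap.toMatrix B B (act K M) = M'.map (algebraMap ℚ K) := by
    intro M M' e
    rw [← e, act, hB, Matrix.map_mul, Matrix.map_mul]
  have tri : ∀ M' : Matrix (Fin 3) (Fin 3) ℚ,
      ((∀ i j : Fin 3, (i : ℕ) + 1 < j ∨ (j : ℕ) + 1 < i → M' i j = 0) ∧
      ∀ i j : Fin 3, (i : ℕ) + 1 = j → M' i j ≠ 0 ∧ M' j i ≠ 0) →
      IsIrredTridiagonal (M'.map (algebraMap ℚ K)) := by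
    intro M' hM
    refine ⟨fun i j hij => ?_, fun i j hij => ⟨?_, ?_⟩⟩
    · rw [Matrix.map_apply, hM.1 i j hij, map_zero]
    · rw [Matrix.map_apply]
      exact (map_ne_zero _).mpr (hM.2 i j hij).1
    · rw [Matrix.map_apply]
      exact (map_ne_zero _).mpr (hM.2 i j hij).2
  refine ⟨3, B, ?_, ?_, ?_⟩
  · rw [key _ _ hX]
    intro i j hij
    rw [Matrix.map_apply, hX' i j hij, map_zero]
  · rw [key _ _ hY]
    exact tri _ hY'
  · rw [key _ _ hZ]
    exact tri _ hZ'

end Act

def mA : Matrix (Fin 3) (Fin 3) ℚ := !![1, 0, 0; 0, 0, 0; 0, 0, -1]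
def mB : Matrix (Fin 3) (Fin 3) ℚ := !![0, 1, 0; 1/2, 0, 1/2; 0, 1, 0]
def mC : Matrix (Fin 3) (Fin 3) ℚ := !![0, 1, 0; 1/2, 0, -1/2; 0, -1, 0]

lemma triple (K : Type u) [Field K] [CharZero K] :
    IsLeonardTriple (act K mA) (act K mB) (act K mC) := by
  refine ⟨?_, ?_, ?_⟩
  · apply leonard_of K mA mB mC 1 1 mA mB mC
    all_goals first
      | decide +kernel
      | (intro i j; fin_cases i <;> fin_cases j <;> decide +kernel)
      | (constructor <;> intro i j <;> fin_cases i <;> fin_cases j <;> decide +kernel)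
  · apply leonard_of K mB mA mC !![1, 1, 1; 1, 0, -1; 1, -1, 1]
      !![1/4, 1/2, 1/4; 1/2, 0, -1/2; 1/4, -1/2, 1/4]
      !![1, 0, 0; 0, 0, 0; 0, 0, -1]
      !![0, 1/2, 0; 1, 0, 1; 0, 1/2, 0]
      !![0, 1/2, 0; 1, 0, -1; 0, -1/2, 0]
    all_goals first
      | decide +kernel
      | (intro i j; fin_cases i <;> fin_cases j <;> decide +kernel)
      | (constructor <;> intro i j <;> fin_cases i <;> fin_cases j <;> decide +kernel)
  · apply leonard_of K mC mA mB !![1, 1, 1; 1, 0, -1; -1, 1, -1]
      !![1/4, 1/2, -1/4; 1/2, 0, 1/2; 1/4, -1/2, -1/4]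
      !![1, 0, 0; 0, 0, 0; 0, 0, -1]
      !![0, 1/2, 0; 1, 0, 1; 0, 1/2, 0]
      !![0, 1/2, 0; 1, 0, -1; 0, -1/2, 0]
    all_goals first
      | decide +kernel
      | (intro i j; fin_cases i <;> fin_cases j <;> decide +kernel)
      | (constructor <;> intro i j <;> fin_cases i <;> fin_cases j <;> decide +kernel)

/-- `A` and `C` have no common invariant subspace except zero and everything. -/
lemma irreducible_pair (K : Type u) [Field K] [CharZero K] (W : Submodule K (Fin 3 → K))
    (hA : ∀ v ∈ W, act K mA v ∈ W) (hC : ∀ v ∈ W, act K mC v ∈ W) : W = ⊥ ∨ W = ⊤ := by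
  by_cases hbot : W = ⊥
  · exact Or.inl hbot
  right
  obtain ⟨v, hv, hv0⟩ := Submodule.exists_mem_ne_zero_of_ne_bot hbot
  have proj : ∀ (k : Fin 3) (w : Fin 3 → K), w ∈ W → Pi.single k (w k) ∈ W := by
    intro k w hw
    have h1 := hA w hw
    have h2 := hA _ h1
    have key : ∀ a b c : ℚ, a • (mA * mA) + b • mA + c • 1
        = Matrix.of (fun i j => if i = k ∧ j = k then (1 : ℚ) else 0) →
        Pi.single k (w k) = (a : K) • act K mA (act K mA w) + (b : K) • act K mA w
          + (c : K) • w := by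
      intro a b c h
      have h3 := congrArg (fun M => act K M w) h
      simp only [act_add, act_smul, act_mul, act_one, LinearMap.add_apply, LinearMap.smul_apply,
        Module.End.mul_apply, Module.End.one_apply] at h3
      rw [h3]
      ext i
      rw [act_apply]
      fin_cases k <;> fin_cases i <;> simp
    have fin : ∀ a b c : ℚ, Pi.single k (w k) = (a : K) • act K mA (act K mA w)
        + (b : K) • act K mA w + (c : K) • w → Pi.single k (w k) ∈ W := by
      intro a b c h
      rw [h]
      exact W.add_mem (W.add_mem (W.smul_mem _ h2) (W.smul_mem _ h1)) (W.smul_mem _ hw)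
    fin_cases k
    · exact fin _ _ _ (key (1/2) (1/2) 0 (by decide +kernel))
    · exact fin _ _ _ (key (-1) 0 1 (by decide +kernel))
    · exact fin _ _ _ (key (1/2) (-1/2) 0 (by decide +kernel))
  have scale : ∀ (k : Fin 3) (t : K), t ≠ 0 → Pi.single k t ∈ W →
      (Pi.single k 1 : Fin 3 → K) ∈ W := by
    intro k t ht h
    have h' := W.smul_mem t⁻¹ h
    convert h' using 1
    ext i
    fin_cases k <;> fin_cases i <;> simp [ht]
  have move : ∀ (k l : Fin 3) (M : Matrix (Fin 3) (Fin 3) ℚ), M l k ≠ 0 →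
      (∀ w ∈ W, act K M w ∈ W) → (Pi.single k 1 : Fin 3 → K) ∈ W →
      (Pi.single l 1 : Fin 3 → K) ∈ W := by
    intro k l M hM hMW h
    have h1 := proj l _ (hMW _ h)
    apply scale l _ _ h1
    have e : act K M (Pi.single k 1) l = (M l k : K) := by
      rw [act_apply]
      fin_cases k <;> simp
    rw [e]
    exact_mod_cast hM
  have mid : (Pi.single 1 1 : Fin 3 → K) ∈ W := by
    by_cases h0 : v 0 = 0
    · by_cases h1 : v 1 = 0
      · have h2 : v 2 ≠ 0 := by
          intro h2
          apply hv0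
          ext i
          fin_cases i <;> simp [h0, h1, h2]
        exact move 2 1 mC (by decide +kernel) hC (scale 2 _ h2 (proj 2 v hv))
      · exact scale 1 _ h1 (proj 1 v hv)
    · exact move 0 1 mC (by decide +kernel) hC (scale 0 _ h0 (proj 0 v hv))
  have e0 := move 1 0 mC (by decide +kernel) hC mid
  have e2 := move 1 2 mC (by decide +kernel) hC mid
  rw [Submodule.eq_top_iff']
  intro w
  have h := W.add_mem (W.smul_mem (w 0) e0) (W.add_mem (W.smul_mem (w 1) mid)
    (W.smul_mem (w 2) e2))
  convert h using 1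
  ext i
  fin_cases i <;> simp

/-- No proper nonempty set of basis vectors spans a common invariant subspace of `A` and `C`. -/
lemma no_block (K : Type u) [Field K] [CharZero K] (b : Module.Basis (Fin 3) K (Fin 3 → K))
    (S : Finset (Fin 3)) (i₀ j₀ : Fin 3) (hi₀ : i₀ ∈ S) (hj₀ : j₀ ∉ S)
    (hA : ∀ i ∉ S, ∀ j ∈ S, LinearMap.toMatrix b b (act K mA) i j = 0)
    (hC : ∀ i ∉ S, ∀ j ∈ S, LinearMap.toMatrix b b (act K mC) i j = 0) : False := by
  let W : Submodule K (Fin 3 → K) :=
    { carrier := {v | ∀ i ∉ S, b.repr v i = 0}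
      add_mem' := by
        intro v w hv hw i hi
        rw [map_add, Finsupp.add_apply, hv i hi, hw i hi, add_zero]
      zero_mem' := by
        intro i hi
        simp
      smul_mem' := by
        intro c v hv i hi
        rw [map_smul, Finsupp.smul_apply, hv i hi, smul_zero] }
  have hmem : ∀ v, v ∈ W ↔ ∀ i ∉ S, b.repr v i = 0 := fun v => Iff.rfl
  have inv : ∀ T : Module.End K (Fin 3 → K),
      (∀ i ∉ S, ∀ j ∈ S, LinearMap.toMatrix b b T i j = 0) → ∀ v ∈ W, T v ∈ W := by
    intro T hT v hv
    rw [hmem]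
    intro i hi
    have h1 := congrFun (LinearMap.toMatrix_mulVec_repr b b T v) i
    rw [← h1, Matrix.mulVec, dotProduct]
    apply Finset.sum_eq_zero
    intro j _
    by_cases hj : j ∈ S
    · rw [hT i hi j hj, zero_mul]
    · rw [(hmem v).mp hv j hj, mul_zero]
  rcases irreducible_pair K W (inv _ hA) (inv _ hC) with h | h
  · have h1 : b i₀ ∈ W := by
      rw [hmem]
      intro i hi
      rw [Module.Basis.repr_self, Finsupp.single_apply, if_neg]
      rintro rfl
      exact hi hi₀
    rw [h, Submodule.mem_bot] at h1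
    exact b.ne_zero i₀ h1
  · have h1 : b j₀ ∈ W := by
      rw [h]
      trivial
    have h2 := (hmem _).mp h1 j₀ hj₀
    rw [Module.Basis.repr_self, Finsupp.single_apply, if_pos rfl] at h2
    exact one_ne_zero h2

/-- A three dimensional irreducible representation has the standard form. -/
lemma standard_basis (K : Type u) [Field K] [CharZero K] [IsAlgClosed K]
    (x y z : Module.End K (Fin 3 → K)) (h : IsEquitable x y z) (hirr : IsIrreducible x y z) :
    ∃ b : Module.Basis (Fin 3) K (Fin 3 → K),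
      LinearMap.toMatrix b b x = !![2, 0, 0; 0, 0, 0; 0, 0, -2] ∧
      LinearMap.toMatrix b b y = !![-2, -8, 0; 0, 0, -8; 0, 0, 2] ∧
      LinearMap.toMatrix b b z = !![-2, 0, 0; 1, 0, 0; 0, 1, 2] := by
  classical
  obtain ⟨p, hp⟩ : ∃ p, p = x + y := ⟨_, rfl⟩
  obtain ⟨r, hr⟩ : ∃ r, r = x + z := ⟨_, rfl⟩
  have hxy := h.lie_xy
  have hyz := h.lie_yz
  have hzx := h.lie_zx
  have hxp : x * p = p * x + (2 : K) • p := by
    rw [hp]
    have e : x * (x + y) - (x + y) * x = x * y - y * x := by noncomm_ring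
    rw [← sub_eq_iff_eq_add', e, hxy, smul_add]
  have hxr : x * r = r * x - (2 : K) • r := by
    rw [hr]
    have e : x * (x + z) - (x + z) * x = -(z * x - x * z) := by noncomm_ring
    have e2 : x * (x + z) = (x + z) * x + -(z * x - x * z) := by rw [← e]; abel
    rw [e2, hzx, smul_add]
    abel
  have hpr : p * r = r * p - (4 : K) • x := by
    rw [hp, hr]
    have e : (x + y) * (x + z) - (x + z) * (x + y)
        = -(z * x - x * z) + -(x * y - y * x) + (y * z - z * y) := by noncomm_ring
    have e2 : (x + y) * (x + z) = (x + z) * (x + y)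
        + (-(z * x - x * z) + -(x * y - y * x) + (y * z - z * y)) := by rw [← e]; abel
    rw [e2, hzx, hxy, hyz]
    module
  have htr : LinearMap.trace K (Fin 3 → K) x = 0 := by
    have h1 := congrArg (LinearMap.trace K (Fin 3 → K)) hpr
    rw [map_sub, map_smul, LinearMap.trace_mul_comm, smul_eq_mul] at h1
    have h2 : (4 : K) * LinearMap.trace K (Fin 3 → K) x = 0 := by linear_combination h1
    rcases mul_eq_zero.mp h2 with h3 | h3
    · norm_num at h3
    · exact h3
  -- `p` is not injective
  have hker : LinearMap.ker p ≠ ⊥ := by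
    intro hk
    have hu := (LinearMap.isUnit_iff_ker_eq_bot p).mpr hk
    obtain ⟨w, hw⟩ := hu
    have h1 : (↑w⁻¹ : Module.End K (Fin 3 → K)) * (x * p) = x + (2 : K) • 1 := by
      rw [hxp, ← hw, mul_add, mul_smul_comm, ← mul_assoc, Units.inv_mul, one_mul]
    have h2 := congrArg (LinearMap.trace K (Fin 3 → K)) h1
    rw [LinearMap.trace_mul_comm, mul_assoc, ← hw, Units.mul_inv, mul_one, map_add, map_smul,
      LinearMap.trace_one] at h2
    simp at h2
  -- a highest weight vector
  obtain ⟨v, c, hv0, hpv, hxv⟩ : ∃ (v : Fin 3 → K) (c : K), v ≠ 0 ∧ p v = 0 ∧ x v = c • v := by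
    have hinv : ∀ w ∈ LinearMap.ker p, x w ∈ LinearMap.ker p := by
      intro w hw
      rw [LinearMap.mem_ker] at hw ⊢
      have h1 := congrArg (fun f : Module.End K (Fin 3 → K) => f w) hxp
      simp only [Module.End.mul_apply, LinearMap.add_apply, LinearMap.smul_apply, hw, map_zero,
        smul_zero, add_zero] at h1
      exact h1.symm
    have : Nontrivial (LinearMap.ker p) := Submodule.nontrivial_iff_ne_bot.mpr hker
    obtain ⟨c, hc⟩ := Module.End.exists_eigenvalue (x.restrict hinv)
    obtain ⟨w, hw⟩ := hc.exists_hasEigenvector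
    refine ⟨w, c, ?_, w.2, ?_⟩
    · intro h0
      exact hw.2 (Subtype.ext h0)
    · have h1 := hw.apply_eq_smul
      have h2 := congrArg Subtype.val h1
      simpa using h2
  have ep : ∀ w, y w = p w - x w := by
    intro w
    rw [hp, LinearMap.add_apply]
    abel
  have er : ∀ w, z w = r w - x w := by
    intro w
    rw [hr, LinearMap.add_apply]
    abel
  have fxp : ∀ w, x (p w) = p (x w) + (2 : K) • p w := by
    intro w
    have h1 := congrArg (fun f : Module.End K (Fin 3 → K) => f w) hxp
    simpa using h1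
  have fxr : ∀ w, x (r w) = r (x w) - (2 : K) • r w := by
    intro w
    have h1 := congrArg (fun f : Module.End K (Fin 3 → K) => f w) hxr
    simpa using h1
  have fpr : ∀ w, p (r w) = r (p w) - (4 : K) • x w := by
    intro w
    have h1 := congrArg (fun f : Module.End K (Fin 3 → K) => f w) hpr
    simpa using h1
  have hx1 : x (r v) = (c - 2) • r v := by
    rw [fxr, hxv, map_smul]
    module
  have hx2 : x (r (r v)) = (c - 4) • r (r v) := by
    rw [fxr, hx1, map_smul]
    module
  have hx3 : x (r (r (r v))) = (c - 6) • r (r (r v)) := by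
    rw [fxr, hx2, map_smul]
    module
  have hp1 : p (r v) = (-(4 * c)) • v := by
    rw [fpr, hpv, hxv, map_zero]
    module
  have hp2 : p (r (r v)) = (-(8 * c - 8)) • r v := by
    rw [fpr, hp1, hx1, map_smul]
    module
  have hcard : Module.finrank K (Fin 3 → K) = 3 := by simp
  have hv1 : r v ≠ 0 := by
    intro h0
    have hW := hirr.2 (Submodule.span K {v}) (by
      intro w hw
      obtain ⟨t, rfl⟩ := Submodule.mem_span_singleton.mp hw
      have hm : v ∈ Submodule.span K {v} := Submodule.mem_span_singleton_self v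
      refine ⟨?_, ?_, ?_⟩
      · rw [map_smul, hxv]
        exact Submodule.smul_mem _ _ (Submodule.smul_mem _ _ hm)
      · rw [map_smul, ep, hpv, hxv]
        exact Submodule.smul_mem _ _ (Submodule.sub_mem _ (Submodule.zero_mem _)
          (Submodule.smul_mem _ _ hm))
      · rw [map_smul, er, h0, hxv]
        exact Submodule.smul_mem _ _ (Submodule.sub_mem _ (Submodule.zero_mem _)
          (Submodule.smul_mem _ _ hm)))
    rcases hW with h1 | h1
    · exact hv0 (Submodule.span_singleton_eq_bot.mp h1)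
    · have h2 := finrank_span_le_card (R := K) ({v} : Set (Fin 3 → K))
      rw [h1, finrank_top, hcard] at h2
      simp at h2
  have hv2 : r (r v) ≠ 0 := by
    intro h0
    have hm0 : v ∈ Submodule.span K {v, r v} := Submodule.subset_span (by simp)
    have hm1 : r v ∈ Submodule.span K {v, r v} := Submodule.subset_span (by simp)
    have hW := hirr.2 (Submodule.span K {v, r v}) (by
      intro w hw
      obtain ⟨s, t, rfl⟩ := Submodule.mem_span_pair.mp hw
      refine ⟨?_, ?_, ?_⟩
      · rw [map_add, map_smul, map_smul, hxv, hx1]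
        exact Submodule.add_mem _ (Submodule.smul_mem _ _ (Submodule.smul_mem _ _ hm0))
          (Submodule.smul_mem _ _ (Submodule.smul_mem _ _ hm1))
      · rw [map_add, map_smul, map_smul, ep, ep, hpv, hp1, hxv, hx1]
        exact Submodule.add_mem _ (Submodule.smul_mem _ _ (Submodule.sub_mem _
          (Submodule.zero_mem _) (Submodule.smul_mem _ _ hm0)))
          (Submodule.smul_mem _ _ (Submodule.sub_mem _ (Submodule.smul_mem _ _ hm0)
            (Submodule.smul_mem _ _ hm1)))
      · rw [map_add, map_smul, map_smul, er, er, h0, hxv, hx1]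
        exact Submodule.add_mem _ (Submodule.smul_mem _ _ (Submodule.sub_mem _ hm1
          (Submodule.smul_mem _ _ hm0)))
          (Submodule.smul_mem _ _ (Submodule.sub_mem _ (Submodule.zero_mem _)
            (Submodule.smul_mem _ _ hm1))))
    rcases hW with h1 | h1
    · rw [h1] at hm0
      exact hv0 ((Submodule.mem_bot K).mp hm0)
    · have h2 := finrank_span_finset_le_card (R := K) ({v, r v} : Finset (Fin 3 → K))
      rw [Set.finrank, Finset.coe_insert, Finset.coe_singleton, h1, finrank_top, hcard] at h2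
      have h3 : ({v, r v} : Finset (Fin 3 → K)).card ≤ 2 := Finset.card_le_two
      omega
  have hli : LinearIndependent K ![v, r v, r (r v)] := by
    apply Module.End.eigenvectors_linearIndependent' x (fun i : Fin 3 => c - 2 * ((i : ℕ) : K))
    · intro i j hij
      have h1 : ((i : ℕ) : K) = ((j : ℕ) : K) := by linear_combination (-1/2) * hij
      exact Fin.ext (by exact_mod_cast h1)
    · intro i
      fin_cases i
      · exact ⟨Module.End.mem_eigenspace_iff.mpr (by simpa using hxv), hv0⟩
      · exact ⟨Module.End.mem_eigenspace_iff.mpr (by simpa using hx1), hv1⟩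
      · refine ⟨Module.End.mem_eigenspace_iff.mpr ?_, hv2⟩
        have e : c - 2 * (((2 : Fin 3) : ℕ) : K) = c - 4 := by norm_num
        change x (r (r v)) = (c - 2 * (((2 : Fin 3) : ℕ) : K)) • r (r v)
        rw [e]
        exact hx2
  let b := basisOfLinearIndependentOfCardEqFinrank hli (by simp)
  have hb0 : b 0 = v := by simp [b]
  have hb1 : b 1 = r v := by simp [b]
  have hb2 : b 2 = r (r v) := by simp [b]
  have mx : LinearMap.toMatrix b b x = !![c, 0, 0; 0, c - 2, 0; 0, 0, c - 4] := by
    ext i j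
    rw [LinearMap.toMatrix_apply]
    fin_cases j
    · have e : x (b 0) = c • b 0 := by rw [hb0, hxv]
      change b.repr (x (b 0)) i = _
      rw [e]
      fin_cases i <;> simp
    · have e : x (b 1) = (c - 2) • b 1 := by rw [hb1, hx1]
      change b.repr (x (b 1)) i = _
      rw [e]
      fin_cases i <;> simp
    · have e : x (b 2) = (c - 4) • b 2 := by rw [hb2, hx2]
      change b.repr (x (b 2)) i = _
      rw [e]
      fin_cases i <;> simp
  have hc : c = 2 := by
    rw [LinearMap.trace_eq_matrix_trace K b, mx] at htr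
    simp [Matrix.trace, Fin.sum_univ_succ] at htr
    linear_combination (1/3) * htr
  subst hc
  have hv3 : r (r (r v)) = 0 := by
    have h1 := LinearMap.toMatrix_mulVec_repr b b x (r (r (r v)))
    rw [hx3, mx, map_smul] at h1
    have h1' := congrFun h1
    have g0 := h1' 0
    have g1 := h1' 1
    have g2 := h1' 2
    simp [Matrix.mulVec, dotProduct, Fin.sum_univ_succ] at g0 g1 g2
    apply b.repr.injective
    ext i
    rw [map_zero]
    fin_cases i
    · change b.repr (r (r (r v))) 0 = 0
      rcases g0 with g | g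
      · norm_num at g
      · exact g
    · change b.repr (r (r (r v))) 1 = 0
      rcases g1 with g | g
      · norm_num at g
      · exact g
    · change b.repr (r (r (r v))) 2 = 0
      exact g2
  refine ⟨b, ?_, ?_, ?_⟩
  · rw [mx]
    ext i j
    fin_cases i <;> fin_cases j <;> norm_num
  · ext i j
    rw [LinearMap.toMatrix_apply]
    fin_cases j
    · have e : y (b 0) = (-2 : K) • b 0 := by
        rw [hb0, ep, hpv, hxv]
        module
      change b.repr (y (b 0)) i = _
      rw [e]
      fin_cases i <;> simp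
    · have e : y (b 1) = (-8 : K) • b 0 := by
        rw [hb1, hb0, ep, hp1, hx1]
        module
      change b.repr (y (b 1)) i = _
      rw [e]
      fin_cases i <;> simp
    · have e : y (b 2) = (-8 : K) • b 1 + (2 : K) • b 2 := by
        rw [hb2, hb1, ep, hp2, hx2]
        module
      change b.repr (y (b 2)) i = _
      rw [e]
      fin_cases i <;> simp
  · ext i j
    rw [LinearMap.toMatrix_apply]
    fin_cases j
    · have e : z (b 0) = b 1 + (-2 : K) • b 0 := by
        rw [hb0, hb1, er, hxv]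
        module
      change b.repr (z (b 0)) i = _
      rw [e]
      fin_cases i <;> simp
    · have e : z (b 1) = b 2 := by
        rw [hb1, hb2, er, hx1]
        module
      change b.repr (z (b 1)) i = _
      rw [e]
      fin_cases i <;> simp
    · have e : z (b 2) = (2 : K) • b 2 := by
        rw [hb2, er, hv3, hx2]
        module
      change b.repr (z (b 2)) i = _
      rw [e]
      fin_cases i <;> simp

lemma exists_coeff {K : Type u} [Field K] {V : Type v} [AddCommGroup V] [Module K V]
    (A p q : Module.End K V) (h : A ∈ spanFour p q) :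
    ∃ a₀ a₁ a₂ a₃ : K, A = a₀ • 1 + a₁ • p + a₂ • q + a₃ • (p * q) := by
  unfold spanFour at h
  rw [Submodule.mem_span_insert] at h
  obtain ⟨a₀, w, hw, rfl⟩ := h
  rw [Submodule.mem_span_triple] at hw
  obtain ⟨a₁, a₂, a₃, rfl⟩ := hw
  exact ⟨a₀, a₁, a₂, a₃, by abel⟩

/-- The polynomial system met by the coefficients has no solution. -/
lemma no_solution {K : Type u} [Field K] [CharZero K] (a₀ a₁ a₂ a₃ b₀ b₁ b₂ b₃ c₀ c₁ c₂ c₃ : K)
    (A B C : Matrix (Fin 3) (Fin 3) K)
    (hA : A = !![a₀ + 2 * a₁ - 2 * a₂ - 4 * a₃, -8 * a₂ - 16 * a₃, 0; 0, a₀, -8 * a₂;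
      0, 0, a₀ - 2 * a₁ + 2 * a₂ - 4 * a₃])
    (hB : B = !![b₀ - 2 * b₁ - 2 * b₂ - 4 * b₃, -8 * b₁, 0; b₂, b₀ - 8 * b₃, -8 * b₁ - 16 * b₃;
      0, b₂ + 2 * b₃, b₀ + 2 * b₁ + 2 * b₂ + 4 * b₃])
    (hC : C = !![c₀ - 2 * c₁ + 2 * c₂ - 4 * c₃, 0, 0; c₁ + 2 * c₃, c₀, 0;
      0, c₁, c₀ + 2 * c₁ - 2 * c₂ - 4 * c₃])
    (h1 : A * B + B * A = C) (h2 : B * C + C * B = A) (h3 : C * A + A * C = B)
    (tA : A.trace = 0) (tC : C.trace = 0) (u1 : A 0 1 ≠ 0) (u2 : A 1 2 ≠ 0) (l1 : C 1 0 ≠ 0)
    (l2 : C 2 1 ≠ 0) : False := by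
  have h1' := fun i j => congrFun (congrFun h1 i) j
  have h2' := fun i j => congrFun (congrFun h2 i) j
  have h3' := fun i j => congrFun (congrFun h3 i) j
  subst hA hB hC
  have p02 := h1' 0 2
  have p10 := h1' 1 0
  have p01 := h1' 0 1
  have q20 := h2' 2 0
  have q01 := h2' 0 1
  have r00 := h3' 0 0
  have r11 := h3' 1 1
  have r01 := h3' 0 1
  have r12 := h3' 1 2
  have r10 := h3' 1 0
  have r21 := h3' 2 1
  simp [Matrix.trace, Fin.sum_univ_succ] at p02 p10 p01 q20 q01 r00 r11 r01 r12 r10 r21 tA tC u1 u2 l1 l2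
  clear h1 h2 h3 h1' h2' h3'
  have e0 : a₀ = 0 := by
    have h : (c₁ + 2 * c₃) * c₁ * a₀ = 0 := by
      linear_combination q20 + (c₁ + 2 * c₃) * r21 + c₁ * r10 - c₁ * (c₁ + 2 * c₃) * tA
    rcases mul_eq_zero.mp h with h | h
    · rcases mul_eq_zero.mp h with h | h
      · exact absurd h l1
      · exact absurd h l2
    · exact h
  have e3 : a₃ = 0 := by linear_combination (-1/8) * tA + (3/8) * e0
  subst e0 e3
  have f0 : c₀ = 0 := by
    have h : a₂ * a₂ * c₀ = 0 := by
      linear_combination (1/64) * p02 - (1/8) * a₂ * r12 - (1/8) * a₂ * r01 - a₂ * a₂ * tC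
    rcases mul_eq_zero.mp h with h | h
    · rcases mul_eq_zero.mp h with h | h
      · exact absurd h u2
      · exact absurd h u2
    · exact h
  have f3 : c₃ = 0 := by linear_combination (-1/8) * tC + (3/8) * f0
  subst f0 f3
  obtain ⟨T, hT⟩ : ∃ T, T = 2 * a₁ - 2 * a₂ := ⟨_, rfl⟩
  obtain ⟨s, hs⟩ : ∃ s, s = -2 * c₁ + 2 * c₂ := ⟨_, rfl⟩
  have g1 : b₁ = a₂ * s := by rw [hs]; linear_combination (1/8) * r01
  have g2 : b₂ = c₁ * T := by rw [hT]; linear_combination -r10
  have g3 : b₃ = -(c₁ * T) := by rw [hT]; linear_combination (1/2) * r10 - (1/2) * r21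
  have g4 : b₃ = -(a₂ * s) := by rw [hs]; linear_combination (1/16) * r12 - (1/16) * r01
  have g5 : T ^ 2 = 1 := by
    have h : c₁ * (T ^ 2 - 1) = 0 := by
      rw [hT] at g2 ⊢
      linear_combination p10 - (2 * a₁ - 2 * a₂) * g2
    rcases mul_eq_zero.mp h with h | h
    · exact absurd h l2
    · linear_combination h
  have g6 : s ^ 2 = 1 := by
    have h : a₂ * (s ^ 2 - 1) = 0 := by
      rw [hs] at g1 ⊢
      linear_combination (-1/8) * q01 - (-2 * c₁ + 2 * c₂) * g1
    rcases mul_eq_zero.mp h with h | h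
    · exact absurd h u2
    · linear_combination h
  have g7 : b₀ = 2 * s * T - 8 * a₂ * c₁ := by
    rw [hs, hT]
    rw [hT] at g2 g3
    rw [hs] at g1 g4
    linear_combination -r00 + 2 * g1 + 2 * (g2 + g3) + 2 * g4
  have g8 : b₀ - 8 * b₃ = -16 * a₂ * c₁ := by
    linear_combination -r11
  have g9 : 24 * (a₂ * c₁) = 3 * (T * s) := by
    have h : a₂ * (24 * (a₂ * c₁) - 3 * (T * s)) = 0 := by
      rw [hs] at g1
      rw [hT, hs]
      linear_combination (1/8) * p01 + (2 * a₁ - 2 * a₂) * g1 + a₂ * g8 - a₂ * r00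
    rcases mul_eq_zero.mp h with h | h
    · exact absurd h u2
    · linear_combination h
  have g10 : 8 * b₃ = 3 * (T * s) := by
    linear_combination g7 - g8 + (1/3) * g9
  have g11 : 8 * a₂ = -(3 * T) := by
    linear_combination (-s) * g10 + 8 * s * g4 - (8 * a₂ + 3 * T) * g6
  have g12 : 8 * c₁ = -(3 * s) := by
    linear_combination (-T) * g10 + 8 * T * g3 - (8 * c₁ + 3 * s) * g5
  have g13 : T * s = 0 := by
    linear_combination (8/3) * g9 - 8 * c₁ * g11 + 3 * T * g12
  have g14 : (1 : K) = 0 := by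
    linear_combination T * s * g13 - g5 * s ^ 2 - g6
  exact one_ne_zero g14

/-- In dimension three there is a Leonard triple which is not of the stated form for any
irreducible representation of `sl2`. -/
theorem result (K : Type u) [Field K] [CharZero K] [IsAlgClosed K] :
    ∃ A B C : Module.End K (Fin 3 → K), IsLeonardPair A B ∧ IsLeonardTriple A B C ∧
      ∀ x y z : Module.End K (Fin 3 → K), IsEquitable x y z → IsIrreducible x y z →
        ¬ (A ∈ spanFour x y ∧ B ∈ spanFour y z ∧ C ∈ spanFour z x) := by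
  have ht := triple K
  refine ⟨act K mA, act K mB, act K mC, ?_, ht, ?_⟩
  · obtain ⟨⟨n, b, h1, h2, _⟩, ⟨m, c, h3, h4, _⟩, _⟩ := ht
    exact ⟨⟨n, b, h1, h2⟩, ⟨m, c, h3, h4⟩⟩
  rintro x y z hE hI ⟨hA, hB, hC⟩
  obtain ⟨b, hx, hy, hz⟩ := standard_basis K x y z hE hI
  obtain ⟨a₀, a₁, a₂, a₃, eA⟩ := exists_coeff _ _ _ hA
  obtain ⟨b₀, b₁, b₂, b₃, eB⟩ := exists_coeff _ _ _ hB
  obtain ⟨c₀, c₁, c₂, c₃, eC⟩ := exists_coeff _ _ _ hC
  have fA : LinearMap.toMatrix b b (act K mA) = !![a₀ + 2 * a₁ - 2 * a₂ - 4 * a₃,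
      -8 * a₂ - 16 * a₃, 0; 0, a₀, -8 * a₂; 0, 0, a₀ - 2 * a₁ + 2 * a₂ - 4 * a₃] := by
    rw [eA]
    simp only [map_add, map_smul, LinearMap.toMatrix_one, LinearMap.toMatrix_mul, hx, hy]
    ext i j
    fin_cases i <;> fin_cases j <;> simp <;> ring
  have fB : LinearMap.toMatrix b b (act K mB) = !![b₀ - 2 * b₁ - 2 * b₂ - 4 * b₃, -8 * b₁, 0;
      b₂, b₀ - 8 * b₃, -8 * b₁ - 16 * b₃; 0, b₂ + 2 * b₃, b₀ + 2 * b₁ + 2 * b₂ + 4 * b₃] := by
    rw [eB]
    simp only [map_add, map_smul, LinearMap.toMatrix_one, LinearMap.toMatrix_mul, hy, hz]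
    ext i j
    fin_cases i <;> fin_cases j <;> simp <;> ring
  have fC : LinearMap.toMatrix b b (act K mC) = !![c₀ - 2 * c₁ + 2 * c₂ - 4 * c₃, 0, 0;
      c₁ + 2 * c₃, c₀, 0; 0, c₁, c₀ + 2 * c₁ - 2 * c₂ - 4 * c₃] := by
    rw [eC]
    simp only [map_add, map_smul, LinearMap.toMatrix_one, LinearMap.toMatrix_mul, hz, hx]
    ext i j
    fin_cases i <;> fin_cases j <;> simp <;> ring
  have rel : ∀ M N P : Matrix (Fin 3) (Fin 3) ℚ, M * N + N * M = P →
      LinearMap.toMatrix b b (act K M) * LinearMap.toMatrix b b (act K N) +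
        LinearMap.toMatrix b b (act K N) * LinearMap.toMatrix b b (act K M) =
        LinearMap.toMatrix b b (act K P) := by
    intro M N P h
    rw [← h, act_add, act_mul, act_mul, map_add, LinearMap.toMatrix_mul, LinearMap.toMatrix_mul]
  have tr : ∀ M : Matrix (Fin 3) (Fin 3) ℚ, M.trace = 0 →
      (LinearMap.toMatrix b b (act K M)).trace = 0 := by
    intro M h
    rw [← LinearMap.trace_eq_matrix_trace K b, act, Matrix.trace_toLin'_eq]
    have e : (M.map (algebraMap ℚ K)).trace = algebraMap ℚ K M.trace := by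
      simp [Matrix.trace]
    rw [e, h, map_zero]
  refine no_solution a₀ a₁ a₂ a₃ b₀ b₁ b₂ b₃ c₀ c₁ c₂ c₃ _ _ _ fA fB fC
    (rel mA mB mC (by decide +kernel)) (rel mB mC mA (by decide +kernel))
    (rel mC mA mB (by decide +kernel)) (tr mA (by decide +kernel)) (tr mC (by decide +kernel))
    ?_ ?_ ?_ ?_
  · intro h
    refine no_block K b {1, 2} 1 0 (by decide) (by decide) ?_ ?_
    · intro i hi j hj
      fin_cases i <;> fin_cases j <;> first
        | exact absurd hj (by decide)
        | exact absurd (by decide) hi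
        | exact h
        | (rw [fA]; simp)
    · intro i hi j hj
      fin_cases i <;> fin_cases j <;> first
        | exact absurd hj (by decide)
        | exact absurd (by decide) hi
        | exact h
        | (rw [fC]; simp)
  · intro h
    refine no_block K b {2} 2 0 (by decide) (by decide) ?_ ?_
    · intro i hi j hj
      fin_cases i <;> fin_cases j <;> first
        | exact absurd hj (by decide)
        | exact absurd (by decide) hi
        | exact h
        | (rw [fA]; simp)
    · intro i hi j hj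
      fin_cases i <;> fin_cases j <;> first
        | exact absurd hj (by decide)
        | exact absurd (by decide) hi
        | exact h
        | (rw [fC]; simp)
  · intro h
    refine no_block K b {0} 0 1 (by decide) (by decide) ?_ ?_
    · intro i hi j hj
      fin_cases i <;> fin_cases j <;> first
        | exact absurd hj (by decide)
        | exact absurd (by decide) hi
        | exact h
        | (rw [fA]; simp)
    · intro i hi j hj
      fin_cases i <;> fin_cases j <;> first
        | exact absurd hj (by decide)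
        | exact absurd (by decide) hi
        | exact h
        | (rw [fC]; simp)
  · intro h
    refine no_block K b {0, 1} 0 2 (by decide) (by decide) ?_ ?_
    · intro i hi j hj
      fin_cases i <;> fin_cases j <;> first
        | exact absurd hj (by decide)
        | exact absurd (by decide) hi
        | exact h
        | (rw [fA]; simp)
    · intro i hi j hj
      fin_cases i <;> fin_cases j <;> first
        | exact absurd hj (by decide)
        | exact absurd (by decide) hi
        | exact h
        | (rw [fC]; simp)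

end Pool.Agent.Results.MP_44ae8d_al.AnticommutatorTriple
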